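import Mathlib

set_option autoImplicit false

/-! Induced forests in random spanning subgraphs: statements. -/

namespace Pool.Agent.Y395.GX

open Finset

/-- The expectation of `f F` for a random subset `F` of `E`, each element being kept independently
with probability `p`. -/
noncomputable def Ex {α : Type} (p : ℝ) (E : Finset α) (f : Finset α → ℝ) : ℝ :=
  ∑ F ∈ E.powerset, p ^ F.card * (1 - p) ^ (E.card - F.card) * f F

/-- GX-FUB -/
def SFub : Prop := ∀ (α : Type) [DecidableEq α] (p : ℝ) (A B : Finset α) (f : Finset α → ℝ),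
  Disjoint A B → Ex p (A ∪ B) f = Ex p A (fun F₁ => Ex p B (fun F₂ => f (F₁ ∪ F₂)))

/-- GX-TOT -/
def STot : Prop := ∀ (α : Type) (p : ℝ) (E : Finset α) (c : ℝ), Ex p E (fun _ => c) = c

open scoped Classical in
/-- GX-STAR -/
def SStar : Prop := ∀ (α ι : Type) (p π : ℝ), 0 ≤ p → p ≤ 1 → 0 ≤ π →
  ∀ (N : Finset ι) (S t : ι → Finset α) (E : Finset α),
  (∀ w ∈ N, S w ⊆ E) → (∀ w ∈ N, t w ⊆ S w) →
  (∀ w ∈ N, ∀ w' ∈ N, w ≠ w' → Disjoint (S w) (S w')) →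
  (∀ w ∈ N, π ≤ p ^ (t w).card * (1 - p) ^ ((S w).card - (t w).card)) →
  Ex p E (fun F => if ∀ w ∈ N, F ∩ S w ≠ t w then 1 else 0) ≤ (1 - π) ^ N.card

/-- The graph whose edges are the members of `F`. -/
def gr {V : Type} (F : Finset (Sym2 V)) : SimpleGraph V := SimpleGraph.fromEdgeSet (F : Set (Sym2 V))

open scoped Classical in
/-- The edges of `G`. -/
noncomputable def ed {V : Type} [Fintype V] (G : SimpleGraph V) : Finset (Sym2 V) := G.edgeFinset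

/-- Every vertex has at most one smaller neighbour. -/
def Nice {f : ℕ} (T : SimpleGraph (Fin f)) : Prop :=
  ∀ i j k : Fin f, j < i → k < i → T.Adj i j → T.Adj i k → j = k

/-- GX-ORD -/
def SOrd : Prop := ∀ (f : ℕ) (T : SimpleGraph (Fin f)), T.IsAcyclic →
  ∃ T' : SimpleGraph (Fin f), Nice T' ∧ Nonempty (T ≃g T')

/-- `s` is an induced copy of the part of `T` on the vertices `0, ..., i - 1` in `H`. -/
def Copy {V : Type} {f : ℕ} (T : SimpleGraph (Fin f)) (H : SimpleGraph V) (i : ℕ)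
    (s : Fin f → V) : Prop :=
  (∀ a b : Fin f, a.1 < i → b.1 < i → s a = s b → a = b) ∧
    ∀ a b : Fin f, a.1 < i → b.1 < i → (H.Adj (s a) (s b) ↔ T.Adj a b)

open scoped Classical in
/-- GX-STEP: from a copy of the first `i` vertices inside `U` the probability of failing is small. -/
def SStep : Prop := ∀ (V : Type) [Fintype V] (G : SimpleGraph V) (W : Finset V) (d f q : ℕ),
  (∀ v ∈ W, d ≤ (W.filter (fun w => G.Adj v w)).card) → f * q + 1 ≤ d →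
  ∀ T : SimpleGraph (Fin f), Nice T → ∀ p : ℝ, 0 ≤ p → p ≤ 1 →
  ∀ (i : ℕ), 1 ≤ i → i ≤ f → ∀ (U : Finset V) (s : Fin f → V) (F₀ : Finset (Sym2 V)),
  U.card ≤ 1 + (i - 1) * q → (∀ a : Fin f, a.1 < i → s a ∈ U ∧ s a ∈ W) →
  F₀ ⊆ (ed G).filter (fun e => ∀ x ∈ e, x ∈ U) → Copy T (gr F₀) i s →
  Ex p ((ed G).filter (fun e => ¬ ∀ x ∈ e, x ∈ U))
      (fun F => if T.IsIndContained (gr (F₀ ∪ F)) then 0 else 1) ≤
    ((f - i : ℕ) : ℝ) * (1 - p * (1 - p) ^ f) ^ q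

open scoped Classical in
/-- GX-MAIN -/
def SMain : Prop := ∀ (V : Type) [Fintype V] (G : SimpleGraph V) (W : Finset V) (d f q : ℕ),
  W.Nonempty → (∀ v ∈ W, d ≤ (W.filter (fun w => G.Adj v w)).card) → f * q + 1 ≤ d →
  ∀ T : SimpleGraph (Fin f), T.IsAcyclic → ∀ p : ℝ, 0 ≤ p → p ≤ 1 →
  Ex p (ed G) (fun F => if T.IsIndContained (gr F) then 0 else 1) ≤
    (f : ℝ) * (1 - p * (1 - p) ^ f) ^ q

open scoped Classical in
/-- GX-DEG -/
def SDeg : Prop := ∀ (V : Type) [Fintype V] (G : SimpleGraph V) (k : ℕ), ¬ G.Colorable k →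
  ∃ W : Finset V, W.Nonempty ∧ ∀ v ∈ W, k ≤ (W.filter (fun w => G.Adj v w)).card

/-- GX-CALC -/
def SCalc : Prop := ∃ k₀ : ℕ, ∀ k f : ℕ, k₀ ≤ k → 1 ≤ f → 8 ^ f ≤ k →
  (f : ℝ) ^ f * (f * (1 - 1 / 2 * (1 - 1 / 2 : ℝ) ^ f) ^ ((k - 1) / f)) ≤ Real.exp (-√(k : ℝ))

open scoped Classical in
/-- GX-ALL: all forests with `f` vertices simultaneously -/
def SAll : Prop := ∀ (V : Type) [Fintype V] (G : SimpleGraph V) (f : ℕ) (ε : ℝ), 1 ≤ f → 0 ≤ ε →
  (∀ T : SimpleGraph (Fin f), T.IsAcyclic →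
    Ex (1 / 2) (ed G) (fun F => if T.IsIndContained (gr F) then 0 else 1) ≤ ε) →
  (((ed G).powerset.filter (fun F => ¬ ∀ (m : ℕ) (T : SimpleGraph (Fin m)), m ≤ f → T.IsAcyclic →
    T.IsIndContained (gr F))).card : ℝ) ≤ (f : ℝ) ^ f * ε * (ed G).powerset.card

end Pool.Agent.Y395.GX
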