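import Pool.Agent.Y395.GX.Per
import Pool.Agent.Y672.GX.FUB
import Pool.Agent.Y918.GX.STAR
import Pool.Agent.Y333.GX.ORD
import Pool.Agent.Y954.GX.STEP
import Pool.Agent.Y662.GX.MAIN
import Pool.Agent.Y288.GX.DEG
import Pool.Agent.Y291.GX.CALC
import Pool.Agent.Y74.GX.ALL

set_option autoImplicit false

/-! Induced forests in random spanning subgraphs: assembly. -/

namespace Pool.Agent.Y395.GX

theorem star : SStar := Pool.Agent.Y918.GX.main Pool.Agent.Y672.GX.fub Pool.Agent.Y672.GX.tot

theorem ord : SOrd := Pool.Agent.Y333.GX.ORD.main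

theorem step : SStep := Pool.Agent.Y954.GX.main Pool.Agent.Y672.GX.fub Pool.Agent.Y672.GX.tot star

theorem smain : SMain := Pool.Agent.Y662.GX.main step ord

theorem deg : SDeg := Pool.Agent.Y288.GX.main

theorem calc' : SCalc := Pool.Agent.Y291.GX.CALC.main

theorem all' : SAll := Pool.Agent.Y74.GX.main ord

end Pool.Agent.Y395.GX
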