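import Pool.Agent.Y395.GX.Stm

set_option autoImplicit false

/-! Induced forests in random spanning subgraphs: final statements. -/

namespace Pool.Agent.Y395.GX

open Finset

theorem forest_bound (hM : SMain) (hD : SDeg) {V : Type} [Fintype V] (G : SimpleGraph V) (k f q : ℕ)
    (hG : ¬ G.Colorable k) (hq : f * q + 1 ≤ k) (T : SimpleGraph (Fin f)) (hT : T.IsAcyclic) (p : ℝ)
    (h0 : 0 ≤ p) (h1 : p ≤ 1) : (open scoped Classical in
    Ex p (ed G) (fun F => if T.IsIndContained (gr F) then 0 else 1)) ≤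
      (f : ℝ) * (1 - p * (1 - p) ^ f) ^ q := by
  classical
  obtain ⟨W, hW, hd⟩ := hD V G k hG
  have := hM V G W k f q hW (by convert hd) hq T hT p h0 h1
  convert this

theorem typical (hM : SMain) (hD : SDeg) (hC : SCalc) (hA : SAll) : ∃ k₀ : ℕ, ∀ (k f : ℕ),
    k₀ ≤ k → 1 ≤ f → 8 ^ f ≤ k → ∀ (V : Type) [Fintype V] (G : SimpleGraph V), ¬ G.Colorable k →
    (open scoped Classical in
    (((ed G).powerset.filter (fun F => ¬ ∀ (m : ℕ) (T : SimpleGraph (Fin m)), m ≤ f → T.IsAcyclic →
      T.IsIndContained (gr F))).card : ℝ)) ≤ Real.exp (-√(k : ℝ)) * (ed G).powerset.card := by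
  classical
  obtain ⟨k₀, hk₀⟩ := hC
  refine ⟨max k₀ 1, fun k f hk hf h8 V _ G hG => ?_⟩
  have hc := hk₀ k f (le_trans (le_max_left _ _) hk) hf h8
  have hk1 : 1 ≤ k := le_trans (le_max_right _ _) hk
  have hq : f * ((k - 1) / f) + 1 ≤ k := by
    have := Nat.mul_div_le (k - 1) f
    omega
  have h := hA V G f ((f : ℝ) * (1 - 1 / 2 * (1 - 1 / 2 : ℝ) ^ f) ^ ((k - 1) / f)) hf (by
    have : (0 : ℝ) ≤ 1 - 1 / 2 * (1 - 1 / 2 : ℝ) ^ f := by
      have : (1 - 1 / 2 : ℝ) ^ f ≤ 1 := pow_le_one₀ (by norm_num) (by norm_num)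
      linarith
    positivity) (fun T hT => by
      have := forest_bound hM hD G k f ((k - 1) / f) hG hq T hT (1 / 2) (by norm_num) (by norm_num)
      convert this)
  refine le_trans (by convert h) ?_
  exact mul_le_mul_of_nonneg_right hc (by positivity)

end Pool.Agent.Y395.GX

namespace Pool.Agent.Y395.GX

open Finset

/-- All but a proportion `ε` of the spanning subgraphs of `G` have the property `P`. -/
def AllBut {V : Type} (ε : ℝ) (G : SimpleGraph V) (P : SimpleGraph V → Prop) : Prop :=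
  ({H : SimpleGraph V | H ≤ G ∧ ¬ P H}.ncard : ℝ) ≤ ε * ({H : SimpleGraph V | H ≤ G}.ncard : ℝ)

theorem mem_ed {V : Type} [Fintype V] (G : SimpleGraph V) (e : Sym2 V) : e ∈ ed G ↔ e ∈ G.edgeSet := by
  classical
  unfold ed
  rw [SimpleGraph.mem_edgeFinset]

theorem edgeSet_gr {V : Type} [Fintype V] (G : SimpleGraph V) {F : Finset (Sym2 V)} (hF : F ⊆ ed G) :
    (gr F).edgeSet = (F : Set (Sym2 V)) := by
  unfold gr
  rw [SimpleGraph.edgeSet_fromEdgeSet]
  ext e
  simp only [Set.mem_sdiff, Finset.mem_coe]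
  constructor
  · exact fun h => h.1
  · intro h
    refine ⟨h, ?_⟩
    have := (mem_ed G e).1 (hF h)
    exact G.not_isDiag_of_mem_edgeSet this

theorem ncard_filter {V : Type} [Fintype V] (G : SimpleGraph V) (P : SimpleGraph V → Prop) :
    {H : SimpleGraph V | H ≤ G ∧ P H}.ncard =
      (open scoped Classical in ((ed G).powerset.filter (fun F => P (gr F))).card) := by
  classical
  have h1 : {H : SimpleGraph V | H ≤ G ∧ P H} =
      gr '' (((ed G).powerset.filter (fun F => P (gr F)) : Finset (Finset (Sym2 V))) :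
        Set (Finset (Sym2 V))) := by
    ext H
    simp only [Set.mem_setOf_eq, Set.mem_image, Finset.mem_coe, Finset.mem_filter,
      Finset.mem_powerset]
    constructor
    · rintro ⟨hH, hP⟩
      have hg : gr (ed H) = H := by
        unfold gr
        have : ((ed H : Finset (Sym2 V)) : Set (Sym2 V)) = H.edgeSet := by
          ext e; rw [Finset.mem_coe, mem_ed]
        rw [this, SimpleGraph.fromEdgeSet_edgeSet]
      refine ⟨ed H, ⟨?_, by rwa [hg]⟩, hg⟩
      intro e he
      rw [mem_ed] at he ⊢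
      exact SimpleGraph.edgeSet_mono hH he
    · rintro ⟨F, ⟨hF, hP⟩, rfl⟩
      refine ⟨?_, hP⟩
      rw [← SimpleGraph.edgeSet_subset_edgeSet, edgeSet_gr G hF]
      intro e he
      exact (mem_ed G e).1 (hF he)
  rw [h1, Set.ncard_image_of_injOn, Set.ncard_coe_finset]
  intro F hF F' hF' h
  simp only [Finset.mem_coe, Finset.mem_filter, Finset.mem_powerset] at hF hF'
  have := congrArg SimpleGraph.edgeSet h
  rw [edgeSet_gr G hF.1, edgeSet_gr G hF'.1] at this
  exact_mod_cast this

theorem allBut_iff {V : Type} [Fintype V] (ε : ℝ) (G : SimpleGraph V) (P : SimpleGraph V → Prop) :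
    AllBut ε G P ↔ ((open scoped Classical in
      ((ed G).powerset.filter (fun F => ¬ P (gr F))).card : ℕ) : ℝ) ≤ ε * (ed G).powerset.card := by
  classical
  unfold AllBut
  rw [ncard_filter G (fun H => ¬ P H)]
  have h2 : {H : SimpleGraph V | H ≤ G}.ncard = (ed G).powerset.card := by
    have := ncard_filter G (fun _ => True)
    simp only [and_true] at this
    rw [this]
    simp
  rw [h2]
  constructor
  · intro h; convert h
  · intro h; convert h

theorem typical' (hM : SMain) (hD : SDeg) (hC : SCalc) (hA : SAll) : ∃ k₀ : ℕ, ∀ (k : ℕ),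
    k₀ ≤ k → ∀ (V : Type) [Fintype V] (G : SimpleGraph V),
    (¬ G.Colorable k → AllBut (Real.exp (-√(k : ℝ))) G (fun H =>
      ∀ (m : ℕ) (T : SimpleGraph (Fin m)), 8 ^ m ≤ k → T.IsAcyclic → T.IsIndContained H)) ∧
    (∀ (m : ℕ) (T : SimpleGraph (Fin m)), 8 ^ m ≤ k → T.IsAcyclic →
      AllBut (Real.exp (-√(k : ℝ))) G (fun H => T.IsIndContained H ∨ H.Colorable k)) := by
  classical
  obtain ⟨k₀, hk₀⟩ := typical hM hD hC hA
  refine ⟨max k₀ 8, fun k hk V _ G => ?_⟩
  have hk8 : 8 ≤ k := le_trans (le_max_right _ _) hk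
  have hf1 : 1 ≤ Nat.log 8 k := Nat.log_pos (by norm_num) hk8
  have hfk : 8 ^ Nat.log 8 k ≤ k := Nat.pow_log_le_self 8 (by omega)
  have key : ¬ G.Colorable k → AllBut (Real.exp (-√(k : ℝ))) G (fun H =>
      ∀ (m : ℕ) (T : SimpleGraph (Fin m)), 8 ^ m ≤ k → T.IsAcyclic → T.IsIndContained H) := by
    intro hG
    rw [allBut_iff]
    have h := hk₀ k (Nat.log 8 k) (le_trans (le_max_left _ _) hk) hf1 hfk V G hG
    refine le_trans ?_ h
    have : ((ed G).powerset.filter (fun F => ¬ ∀ (m : ℕ) (T : SimpleGraph (Fin m)), 8 ^ m ≤ k →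
        T.IsAcyclic → T.IsIndContained (gr F))) ⊆ ((ed G).powerset.filter (fun F =>
          ¬ ∀ (m : ℕ) (T : SimpleGraph (Fin m)), m ≤ Nat.log 8 k → T.IsAcyclic →
            T.IsIndContained (gr F))) := by
      intro F hF
      rw [Finset.mem_filter] at hF ⊢
      refine ⟨hF.1, fun hall => hF.2 fun m T hm hT => hall m T ?_ hT⟩
      exact Nat.le_log_of_pow_le (by norm_num) hm
    have := Finset.card_le_card this
    exact_mod_cast (by convert this)
  refine ⟨key, fun m T hm hT => ?_⟩
  by_cases hG : G.Colorable k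
  · rw [allBut_iff]
    have : ((ed G).powerset.filter (fun F => ¬ (T.IsIndContained (gr F) ∨ (gr F).Colorable k))) = ∅ := by
      rw [Finset.filter_eq_empty_iff]
      intro F hF
      rw [Finset.mem_powerset] at hF
      rw [not_not]
      right
      refine hG.mono_left ?_
      rw [← SimpleGraph.edgeSet_subset_edgeSet, edgeSet_gr G hF]
      intro e he
      exact (mem_ed G e).1 (hF he)
    have h0 : ((open scoped Classical in ((ed G).powerset.filter
      (fun F => ¬ (T.IsIndContained (gr F) ∨ (gr F).Colorable k))).card : ℕ) : ℝ) = 0 := by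
      have := congrArg Finset.card this
      rw [Finset.card_empty] at this
      exact_mod_cast (by convert this)
    have h1 : (0 : ℝ) ≤ Real.exp (-√(k : ℝ)) * (ed G).powerset.card := by positivity
    rw [← h0] at h1
    convert h1
  · have h := key hG
    rw [allBut_iff] at h ⊢
    refine le_trans ?_ h
    have : ((ed G).powerset.filter (fun F => ¬ (T.IsIndContained (gr F) ∨ (gr F).Colorable k))) ⊆
        ((ed G).powerset.filter (fun F => ¬ ∀ (m : ℕ) (T : SimpleGraph (Fin m)), 8 ^ m ≤ k →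
          T.IsAcyclic → T.IsIndContained (gr F))) := by
      intro F hF
      rw [Finset.mem_filter] at hF ⊢
      exact ⟨hF.1, fun hall => hF.2 (Or.inl (hall m T hm hT))⟩
    have := Finset.card_le_card this
    exact_mod_cast (by convert this)

end Pool.Agent.Y395.GX
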