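import Pool.Agent.Y395.GX.Fin

set_option autoImplicit false

/-! Random perturbations of arbitrary graphs. -/

namespace Pool.Agent.Y395.GX

open Finset

section

variable {V : Type}

theorem induce_sup (W : Set V) (F' : SimpleGraph W) (F'' : SimpleGraph V)
    (h : F''.induce W = ⊥) : (F'.map (Function.Embedding.subtype _) ⊔ F'').induce W = F' := by
  ext x y
  have h1 : ¬ F''.Adj x.1 y.1 := by
    intro h2
    have h3 : (F''.induce W).Adj x y := h2
    rw [h] at h3
    exact h3
  constructor
  · intro h2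
    have h3 : (F'.map (Function.Embedding.subtype _) ⊔ F'').Adj x.1 y.1 := h2
    rw [SimpleGraph.sup_adj] at h3
    rcases h3 with h3 | h3
    · exact (SimpleGraph.map_adj_apply (f := Function.Embedding.subtype (· ∈ W))).1 h3
    · exact absurd h3 h1
  · intro h2
    have h3 : (F'.map (Function.Embedding.subtype (· ∈ W))).Adj x.1 y.1 :=
      (SimpleGraph.map_adj_apply (f := Function.Embedding.subtype (· ∈ W))).2 h2
    exact (show (F'.map (Function.Embedding.subtype _) ⊔ F'').Adj x.1 y.1 from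
      (SimpleGraph.sup_adj _ _ _ _).2 (Or.inl h3))

theorem map_mem (W : Set V) (F' : SimpleGraph W) {a b : V}
    (h : (F'.map (Function.Embedding.subtype (· ∈ W))).Adj a b) : a ∈ W ∧ b ∈ W := by
  rw [SimpleGraph.map_adj] at h
  obtain ⟨x, y, _, rfl, rfl⟩ := h
  exact ⟨x.2, y.2⟩

/-- subgraphs of `D`: the part inside `W` and the rest -/
theorem ncard_split [Fintype V] (D : SimpleGraph V) (W : Set V) (Q : SimpleGraph W → Prop) :
    {F : SimpleGraph V | F ≤ D ∧ Q (F.induce W)}.ncard =
      {F : SimpleGraph W | F ≤ D.induce W ∧ Q F}.ncard *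
        {F : SimpleGraph V | F ≤ D ∧ F.induce W = ⊥}.ncard := by
  classical
  rw [← Set.ncard_prod]
  have hinj : Set.InjOn (fun q : SimpleGraph W × SimpleGraph V =>
      q.1.map (Function.Embedding.subtype (· ∈ W)) ⊔ q.2)
      ({F : SimpleGraph W | F ≤ D.induce W ∧ Q F} ×ˢ
        {F : SimpleGraph V | F ≤ D ∧ F.induce W = ⊥}) := by
    rintro ⟨F', F''⟩ ⟨_, _, hF⟩ ⟨G', G''⟩ ⟨_, _, hG⟩ h
    simp only at h hF hG
    have h1 : F' = G' := by
      rw [← induce_sup W F' F'' hF, h, induce_sup W G' G'' hG]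
    subst h1
    have key : ∀ (A B : SimpleGraph V), A.induce W = ⊥ →
        F'.map (Function.Embedding.subtype (· ∈ W)) ⊔ A =
          F'.map (Function.Embedding.subtype (· ∈ W)) ⊔ B → A ≤ B := by
      intro A B hA hAB a b hab
      have h2 : (F'.map (Function.Embedding.subtype (· ∈ W)) ⊔ B).Adj a b := by
        rw [← hAB, SimpleGraph.sup_adj]
        exact Or.inr hab
      rw [SimpleGraph.sup_adj] at h2
      rcases h2 with h2 | h2
      · obtain ⟨ha, hb⟩ := map_mem W F' h2
        have h3 : (A.induce W).Adj ⟨a, ha⟩ ⟨b, hb⟩ := hab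
        rw [hA] at h3
        exact absurd h3 (by simp)
      · exact h2
    rw [Prod.mk.injEq]
    exact ⟨rfl, le_antisymm (key F'' G'' hF h) (key G'' F'' hG h.symm)⟩
  rw [← Set.InjOn.ncard_image hinj]
  congr 1
  ext F
  constructor
  · rintro ⟨hF, hQ⟩
    have hle : (F.induce W).map (Function.Embedding.subtype (· ∈ W)) ≤ F := by
      intro a b hab
      rw [SimpleGraph.map_adj] at hab
      obtain ⟨x, y, hxy, rfl, rfl⟩ := hab
      exact hxy
    refine ⟨(F.induce W, F \ (F.induce W).map (Function.Embedding.subtype (· ∈ W))),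
      ⟨⟨fun x y hxy => hF hxy, hQ⟩, le_trans sdiff_le hF, ?_⟩, ?_⟩
    · ext x y
      constructor
      · intro h
        have h2 : (F \ (F.induce W).map (Function.Embedding.subtype (· ∈ W))).Adj x.1 y.1 := h
        rw [SimpleGraph.sdiff_adj] at h2
        exact absurd ((SimpleGraph.map_adj_apply (f := Function.Embedding.subtype (· ∈ W))).2
          (show (F.induce W).Adj x y from h2.1)) h2.2
      · intro h
        exact absurd h (by simp)
    · exact sup_sdiff_cancel_right hle
  · rintro ⟨⟨F', F''⟩, ⟨⟨h1, h2⟩, h3, h4⟩, rfl⟩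
    simp only at h1 h2 h3 h4 ⊢
    refine ⟨sup_le ?_ h3, ?_⟩
    · intro a b hab
      rw [SimpleGraph.map_adj] at hab
      obtain ⟨x, y, hxy, rfl, rfl⟩ := hab
      exact h1 hxy
    · change Q ((F'.map (Function.Embedding.subtype (· ∈ W)) ⊔ F'').induce W)
      rw [induce_sup W F' F'' h4]
      exact h2

theorem allBut_restrict [Fintype V] {ε : ℝ} (D : SimpleGraph V) (W : Set V)
    (P : SimpleGraph W → Prop) (h : AllBut ε (D.induce W) P) :
    AllBut ε D (fun F => P (F.induce W)) := by
  unfold AllBut at h ⊢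
  have h1 := ncard_split D W (fun F => ¬ P F)
  have h2 := ncard_split D W (fun _ => True)
  simp only [and_true] at h2
  rw [h1, h2]
  push_cast
  rw [← mul_assoc]
  exact mul_le_mul_of_nonneg_right h (Nat.cast_nonneg _)

theorem allBut_mono [Fintype V] {ε : ℝ} {D : SimpleGraph V} {P Q : SimpleGraph V → Prop}
    (h : AllBut ε D P) (hPQ : ∀ F, F ≤ D → P F → Q F) : AllBut ε D Q := by
  classical
  unfold AllBut at h ⊢
  refine le_trans ?_ h
  have : {H : SimpleGraph V | H ≤ D ∧ ¬ Q H}.ncard ≤ {H : SimpleGraph V | H ≤ D ∧ ¬ P H}.ncard := by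
    apply Set.ncard_le_ncard _ (Set.toFinite _)
    rintro H ⟨h1, h2⟩
    exact ⟨h1, fun h3 => h2 (hPQ H h1 h3)⟩
  exact_mod_cast this

/-- **random perturbations** -/
theorem perturb [Fintype V] (k c : ℕ) (H₀ D : SimpleGraph V) (hc : H₀.Colorable c)
    (hk : ∀ (V' : Type) [Fintype V'] (G : SimpleGraph V'), ¬ G.Colorable k →
      AllBut (Real.exp (-√(k : ℝ))) G (fun H =>
        ∀ (m : ℕ) (T : SimpleGraph (Fin m)), 8 ^ m ≤ k → T.IsAcyclic → T.IsIndContained H)) :
    AllBut (Real.exp (-√(k : ℝ))) D (fun F =>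
      (∀ (m : ℕ) (T : SimpleGraph (Fin m)), 8 ^ m ≤ k → T.IsAcyclic →
        T.IsIndContained (symmDiff H₀ F)) ∨ (symmDiff H₀ F).Colorable (c * k)) := by
  classical
  obtain ⟨C⟩ := hc
  have hsd : ∀ (F : SimpleGraph V) (a b : V), C a = C b →
      ((symmDiff H₀ F).Adj a b ↔ F.Adj a b) := by
    intro F a b hab
    have h1 : ¬ H₀.Adj a b := fun h => C.valid h hab
    rw [symmDiff_def, SimpleGraph.sup_adj, SimpleGraph.sdiff_adj, SimpleGraph.sdiff_adj]
    tauto
  by_cases h : ∀ i : Fin c, (D.induce {v | C v = i}).Colorable k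
  · have hall : ∀ F, F ≤ D → (symmDiff H₀ F).Colorable (c * k) := by
      intro F hF
      have h1 : ∀ i : Fin c, ∃ f : V → Fin k, ∀ a b, C a = i → C b = i → D.Adj a b →
          f a ≠ f b := by
        intro i
        obtain ⟨f⟩ := h i
        by_cases hne : Nonempty (Fin k)
        · obtain ⟨z⟩ := hne
          refine ⟨fun v => if hv : C v = i then f ⟨v, hv⟩ else z, fun a b ha hb hab => ?_⟩
          simp only [dif_pos ha, dif_pos hb]
          exact f.valid (show (D.induce {v | C v = i}).Adj ⟨a, ha⟩ ⟨b, hb⟩ from hab)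
        · by_cases hV : ∃ a, C a = i
          · obtain ⟨a, ha⟩ := hV
            exact absurd ⟨f ⟨a, ha⟩⟩ hne
          · by_cases hV2 : Nonempty V
            · obtain ⟨v⟩ := hV2
              obtain ⟨f'⟩ := h (C v)
              exact absurd ⟨f' ⟨v, rfl⟩⟩ hne
            · exact ⟨fun v => absurd ⟨v⟩ hV2, fun a => absurd ⟨a⟩ hV2⟩
      choose f hf using h1
      have h2 : (symmDiff H₀ F).Coloring (Fin c × Fin k) :=
        SimpleGraph.Coloring.mk (fun v => (C v, f (C v) v)) (by
          intro a b hab heq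
          rw [Prod.mk.injEq] at heq
          have h3 := (hsd F a b heq.1).1 hab
          have h4 := hf (C a) a b rfl heq.1.symm (hF h3)
          apply h4
          rw [heq.2, heq.1])
      have h3 := h2.colorable
      rwa [Fintype.card_prod, Fintype.card_fin, Fintype.card_fin] at h3
    unfold AllBut
    have : {F : SimpleGraph V | F ≤ D ∧ ¬ ((∀ (m : ℕ) (T : SimpleGraph (Fin m)), 8 ^ m ≤ k →
        T.IsAcyclic → T.IsIndContained (symmDiff H₀ F)) ∨
          (symmDiff H₀ F).Colorable (c * k))} = ∅ := by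
      rw [Set.eq_empty_iff_forall_notMem]
      rintro F ⟨h1, h2⟩
      exact h2 (Or.inr (hall F h1))
    rw [this, Set.ncard_empty, Nat.cast_zero]
    positivity
  · push Not at h
    obtain ⟨i, hi⟩ := h
    have h1 := allBut_restrict D {v | C v = i} _ (hk _ _ hi)
    refine allBut_mono h1 fun F _ hall => Or.inl fun m T hm hT => ?_
    have h2 := hall m T hm hT
    have h3 : F.induce {v | C v = i} = (symmDiff H₀ F).induce {v | C v = i} := by
      ext x y
      exact (hsd F x.1 y.1 (x.2.trans y.2.symm)).symm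
    rw [h3] at h2
    exact h2.trans ⟨SimpleGraph.Embedding.induce _⟩

end

end Pool.Agent.Y395.GX
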